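import Pool.Agent.Helper51.SDL.Goals
import Pool.Agent.Helper51.REC.Asm

/-!
# Project SD (MP_fc6b1e_nt), part L, packet DU
-/

set_option autoImplicit false

namespace Pool.Agent.Helper92.SDL.DU

open NumberField Module IsDedekindDomain
open Pool.Agent.Helper51.RP Pool.Agent.Helper51.REC Pool.Agent.Helper16.SD

variable {F : Type} [Field F] [NumberField F]

theorem ordv_of_one {W : HeightOneSpectrum (𝓞 F)} {x : F} (h : W.valuation F x = 1) :
    ordv W x = 0 := by
  unfold ordv
  rw [h]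
  simp

open Classical in
/-- the summand -/
noncomputable def tm {p : ℕ} (S₁ : Set (HeightOneSpectrum (𝓞 F)))
    (θ : HeightOneSpectrum (𝓞 F) → ZMod p) (α : Fˣ) (W : HeightOneSpectrum (𝓞 F)) : ZMod p :=
  if W ∈ S₁ then 0 else ((ordv W (α : F) : ℤ) : ZMod p) * θ W

theorem tm_supp {p : ℕ} (S₁ : Set (HeightOneSpectrum (𝓞 F)))
    (θ : HeightOneSpectrum (𝓞 F) → ZMod p) (α : Fˣ) :
    (Function.support (tm S₁ θ α)).Finite := by
  refine (Pool.Agent.Helper33.REC.finite_ordv α).subset ?_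
  intro W hW h0
  apply hW
  unfold tm
  rw [h0]
  simp

/-- the functional -/
noncomputable def ff {p : ℕ} (S₁ : Set (HeightOneSpectrum (𝓞 F)))
    (θ : HeightOneSpectrum (𝓞 F) → ZMod p) (α : Fˣ) : ZMod p := ∑ᶠ W, tm S₁ θ α W

theorem ff_mul {p : ℕ} (S₁ : Set (HeightOneSpectrum (𝓞 F)))
    (θ : HeightOneSpectrum (𝓞 F) → ZMod p) (α β : Fˣ) :
    ff S₁ θ (α * β) = ff S₁ θ α + ff S₁ θ β := by
  unfold ff
  rw [← finsum_add_distrib (tm_supp S₁ θ α) (tm_supp S₁ θ β)]
  refine finsum_congr fun W => ?_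
  unfold tm
  by_cases hW : W ∈ S₁
  · rw [if_pos hW, if_pos hW, if_pos hW, add_zero]
  · rw [if_neg hW, if_neg hW, if_neg hW, Pool.Agent.Helper33.REC.ordv_mul', Int.cast_add, add_mul]

theorem ff_one {p : ℕ} (S₁ : Set (HeightOneSpectrum (𝓞 F)))
    (θ : HeightOneSpectrum (𝓞 F) → ZMod p) : ff S₁ θ 1 = 0 := by
  have h := ff_mul S₁ θ 1 1
  rw [mul_one] at h
  exact left_eq_add.mp h

theorem ff_pow {p : ℕ} (S₁ : Set (HeightOneSpectrum (𝓞 F)))
    (θ : HeightOneSpectrum (𝓞 F) → ZMod p) (α : Fˣ) (n : ℕ) :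
    ff S₁ θ (α ^ n) = n * ff S₁ θ α := by
  induction n with
  | zero => rw [pow_zero, ff_one, Nat.cast_zero, zero_mul]
  | succ n ih => rw [pow_succ, ff_mul, ih]; push_cast; ring

theorem t : Pool.Agent.Helper51.SDL.S_DU := by
  classical
  intro p hp F _ _ ε S₁ hS S hSS N θ hθ
  have hadd := ff_mul S₁ θ
  have hunit : ∀ u ∈ S₁.unit F, ff S₁ θ u = 0 := by
    intro u hu
    refine finsum_eq_zero_of_forall_eq_zero fun W => ?_
    unfold tm
    by_cases hW : W ∈ S₁
    · rw [if_pos hW]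
    · have h1 : W.valuation F ((u : Fˣ) : F) = 1 := Set.unit_valuation_eq_one S₁ F ⟨u, hu⟩ hW
      rw [if_neg hW, ordv_of_one h1]
      simp
  have hloc : ∀ β, Pool.Agent.Helper42.PP.LocS p S₁ β → ff S₁ θ β = 0 := by
    intro β hβ
    obtain ⟨γ, g, e, hg, hpow, hv, hb⟩ := g_int p F ε S₁ hS β (N + 1) hβ
    have hval : ∀ i, ∀ W ∈ S₁, W.valuation F (g i : F) = 1 := by
      intro i W hW
      refine Pool.Agent.Helper42.RD.val_eq_one_of_sub W ?_
      have h1 : ((g i : F) - 1) = algebraMap (𝓞 F) F (γ i - 1) := by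
        rw [map_sub, map_one, hg i]
      rw [h1, HeightOneSpectrum.valuation_lt_one_iff_mem]
      exact hv i W hW
    have hcong : ∀ i, Cong p S N (g i : F) := by
      intro i W hW
      obtain ⟨d, hd⟩ := hpow i
      have h1 : ((g i : F) - 1) = (p : F) ^ (N + 1) * algebraMap (𝓞 F) F d := by
        have h2 : ((g i : F) - 1) = algebraMap (𝓞 F) F (γ i - 1) := by
          rw [map_sub, map_one, hg i]
        rw [h2, hd, map_mul, map_pow, map_natCast]
      rw [h1, map_mul, map_pow, pow_succ]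
      have h3 : W.valuation F (algebraMap (𝓞 F) F d) ≤ 1 := W.valuation_le_one d
      have h4 : W.valuation F (p : F) ≤ 1 := by
        have h5 := W.valuation_le_one (K := F) (p : 𝓞 F)
        have h6 : algebraMap (𝓞 F) F (p : 𝓞 F) = (p : F) := map_natCast _ _
        rw [← h6]
        exact h5
      calc W.valuation F (p : F) ^ N * W.valuation F (p : F) * W.valuation F (algebraMap (𝓞 F) F d)
          ≤ W.valuation F (p : F) ^ N * 1 * 1 := by gcongr
        _ = _ := by rw [mul_one, mul_one]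
    have hzero : ∀ i, ff S₁ θ (g i) = 0 := by
      intro i
      have h1 : ff S₁ θ (g i) = dsum θ (g i : F) := by
        unfold ff dsum
        refine finsum_congr fun W => ?_
        unfold tm
        by_cases hW : W ∈ S₁
        · rw [if_pos hW, ordv_of_one (hval i W hW)]
          simp
        · rw [if_neg hW]
      rw [h1]
      exact hθ (g i) (hcong i)
    have h2 := congrArg (ff S₁ θ) hb
    rw [hadd, hadd, hzero, hzero, ff_pow] at h2
    simpa using h2
  obtain ⟨β, hβ, hf⟩ := (r_dua p F ε S₁ hS).2 (ff S₁ θ) hadd hunit hloc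
  refine ⟨β, hβ, fun W hW => ?_⟩
  obtain ⟨α, hα⟩ := hS.prin (Finsupp.single W 1)
  have h1 := hf α
  have h3 : ff S₁ θ α = θ W := by
    unfold ff
    rw [finsum_eq_single _ W]
    · unfold tm
      rw [if_neg hW, hα W hW, Finsupp.single_eq_same]
      simp
    · intro W' hW'
      unfold tm
      by_cases h : W' ∈ S₁
      · rw [if_pos h]
      · rw [if_neg h, hα W' h, Finsupp.single_eq_of_ne hW']
        simp
  have h4 : brk p ε S₁ β α = kap p ε W β := by
    rw [Pool.Agent.Helper33.REC.brk_eq, finsum_eq_single _ W]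
    · unfold Pool.Agent.Helper33.REC.term
      rw [if_neg hW, hα W hW, Finsupp.single_eq_same]
      simp
    · intro W' hW'
      unfold Pool.Agent.Helper33.REC.term
      by_cases h : W' ∈ S₁
      · rw [if_pos h]
      · rw [if_neg h, hα W' h, Finsupp.single_eq_of_ne hW']
        simp
  rw [← h3, ← h4, h1]

end Pool.Agent.Helper92.SDL.DU
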